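import Pool.Agent.N988.EP.Stm

/-!
# First-passage percolation on hierarchical lattices: extension of potentials
-/

set_option autoImplicit false

open Pool.Agent.N988.EA Pool.Agent.N988.EC Pool.Agent.N988.EP

namespace Pool.Agent.N371.EP

/-- A value between two given values. -/
theorem mid (a c : ℤ) (p q : ℕ) (h : |a - c| ≤ ((p + q : ℕ) : ℤ)) :
    ∃ m : ℤ, |a - m| ≤ (p : ℤ) ∧ |m - c| ≤ (q : ℤ) := by
  rw [abs_le] at h
  obtain ⟨h1, h2⟩ := h
  push_cast at h1 h2
  have hp : (0 : ℤ) ≤ p := Int.natCast_nonneg p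
  have hq : (0 : ℤ) ≤ q := Int.natCast_nonneg q
  rcases le_total a c with hac | hac
  · refine ⟨min (a + p) c, ?_, ?_⟩ <;> rw [abs_le] <;> constructor <;> omega
  · refine ⟨max (a - p) c, ?_, ?_⟩ <;> rw [abs_le] <;> constructor <;> omega

theorem t_EXT : S_EXT := by
  intro b n
  induction n with
  | zero =>
    intro w a c h
    refine ⟨Sum.elim (fun s => if s then c else a) (fun x => x.elim), ?_, ?_, ?_⟩
    · intro e
      have he : w e = w () := rfl
      have h1 : |a - c| ≤ ((if w () then 1 else 0 : ℕ) : ℤ) := h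
      show |a - c| ≤ ((if w e then 1 else 0 : ℕ) : ℤ)
      rw [he]
      exact h1
    · rfl
    · rfl
  | succ n ih =>
    intro w a c h
    have hb : ∀ i : Fin b, |a - c| ≤ ((Y n (sub w i false) + Y n (sub w i true) : ℕ) : ℤ) := by
      intro i
      refine h.trans ?_
      have h1 : (⨅ i : Fin b, (Y n (sub w i false) + Y n (sub w i true))) ≤
          Y n (sub w i false) + Y n (sub w i true) := ciInf_le (OrderBot.bddBelow _) i
      have h2 : Y (n + 1) w = ⨅ i : Fin b, (Y n (sub w i false) + Y n (sub w i true)) := rfl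
      rw [h2]
      exact_mod_cast h1
    choose m hm1 hm2 using fun i => mid a c _ _ (hb i)
    choose g0 hg0 hg0a hg0m using fun i => ih (sub w i false) a (m i) (hm1 i)
    choose g1 hg1 hg1m hg1c using fun i => ih (sub w i true) (m i) c (hm2 i)
    let g : Fin b → Bool → Pt b n → ℤ := fun i h => if h then g1 i else g0 i
    let F : Fin b ⊕ (Fin b × Bool × Vert b n) → ℤ :=
      Sum.elim m (fun p => g p.1 p.2.1 (.inr p.2.2))
    let f : Pt b (n + 1) → ℤ := Sum.elim (fun s => if s then c else a) F
    have hf : ∀ (i : Fin b) (h : Bool) (y : Pt b n), f (emb i h y) = g i h y := by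
      intro i h y
      rcases y with s | x
      · cases s <;> cases h
        · exact (hg0a i).symm
        · exact (hg1m i).symm
        · exact (hg0m i).symm
        · exact (hg1c i).symm
      · rfl
    refine ⟨f, ?_, rfl, rfl⟩
    rintro ⟨i, s, e⟩
    have h1 : ∀ t : Bool, bd (n + 1) (i, s, e) t = emb i s (bd n e t) := fun t => rfl
    rw [h1, h1, hf, hf]
    cases s
    · exact hg0 i e
    · exact hg1 i e

end Pool.Agent.N371.EP
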