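import Pool.Agent.N894.WF.Defs

/-!
# Project WF (helper894), leaf B1 (helper371): the lamplighter step
-/

set_option autoImplicit false

namespace Pool.Agent.N371.WF

open N894.WF
open scoped Classical

/-- the wreath product, with additive lamps -/
@[ext]
structure Wr (P I : Type) (m : ℕ) where
  f : P → I → ZMod m
  g : P

section group

variable {P I : Type} {m : ℕ} [Group P]

instance : Mul (Wr P I m) := ⟨fun a b => ⟨fun z i => a.f z i + b.f (a.g⁻¹ * z) i, a.g * b.g⟩⟩
instance : One (Wr P I m) := ⟨⟨fun _ _ => 0, 1⟩⟩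
instance : Inv (Wr P I m) := ⟨fun a => ⟨fun z i => -a.f (a.g * z) i, a.g⁻¹⟩⟩

theorem mul_f (a b : Wr P I m) (z : P) (i : I) : (a * b).f z i = a.f z i + b.f (a.g⁻¹ * z) i := rfl
theorem mul_g (a b : Wr P I m) : (a * b).g = a.g * b.g := rfl
theorem one_f (z : P) (i : I) : (1 : Wr P I m).f z i = 0 := rfl
theorem one_g : (1 : Wr P I m).g = 1 := rfl
theorem inv_f (a : Wr P I m) (z : P) (i : I) : (a⁻¹).f z i = -a.f (a.g * z) i := rfl
theorem inv_g (a : Wr P I m) : (a⁻¹).g = a.g⁻¹ := rfl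

instance : Group (Wr P I m) := Group.ofLeftAxioms
  (by
    intro a b c
    refine Wr.ext ?_ ?_
    · funext z i
      simp only [mul_f, mul_g, mul_inv_rev, mul_assoc, add_assoc]
    · simp only [mul_g, mul_assoc])
  (by
    intro a
    refine Wr.ext ?_ ?_
    · funext z i
      simp only [mul_f, one_f, one_g, inv_one, one_mul, zero_add]
    · simp only [mul_g, one_g, one_mul])
  (by
    intro a
    refine Wr.ext ?_ ?_
    · funext z i
      simp only [mul_f, inv_f, inv_g, inv_inv, one_f, neg_add_cancel]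
    · simp only [mul_g, inv_g, one_g, inv_mul_cancel])

instance [Finite P] [Finite I] [NeZero m] : Finite (Wr P I m) := by
  have : Function.Injective (fun w : Wr P I m => (w.f, w.g)) := by
    intro a b h
    exact Wr.ext (Prod.ext_iff.1 h).1 (Prod.ext_iff.1 h).2
  have h1 : Finite (ZMod m) := inferInstance
  exact Finite.of_injective _ this

/-- the inclusion -/
def inl (p : P) : Wr P I m := ⟨fun _ _ => 0, p⟩

theorem inl_mul (p q : P) : (inl (p * q) : Wr P I m) = inl p * inl q := by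
  refine Wr.ext ?_ rfl
  funext z i
  rw [mul_f]
  exact (add_zero (0 : ZMod m)).symm

theorem inl_inv (p : P) : (inl p⁻¹ : Wr P I m) = (inl p)⁻¹ := by
  refine Wr.ext ?_ rfl
  funext z i
  rw [inv_f]
  exact neg_zero.symm

theorem conj_inl_f (Z : Wr P I m) (e : P) (z : P) (i : I) :
    (Z * inl e * Z⁻¹).f z i = Z.f z i - Z.f ((Z.g * e * Z.g⁻¹)⁻¹ * z) i := by
  rw [mul_f, mul_f, mul_g, inv_f]
  have h1 : (inl e : Wr P I m).f (Z.g⁻¹ * z) i = 0 := rfl
  have h2 : (inl e : Wr P I m).g = e := rfl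
  rw [h1, h2, add_zero, sub_eq_add_neg]
  congr 3
  group

theorem conj_inl_g (Z : Wr P I m) (e : P) : (Z * inl e * Z⁻¹).g = Z.g * e * Z.g⁻¹ := rfl

/-- the sum over a coset -/
noncomputable def sm [Fintype P] (C : Subgroup P) (x : P) (u : P → ZMod m) : ZMod m :=
  ∑ z : P, if z * x⁻¹ ∈ C then u z else 0

theorem sm_add [Fintype P] (C : Subgroup P) (x : P) (u w : P → ZMod m) :
    sm C x (fun z => u z + w z) = sm C x u + sm C x w := by
  unfold sm
  rw [← Finset.sum_add_distrib]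
  refine Finset.sum_congr rfl fun z _ => ?_
  split_ifs <;> simp

theorem sm_neg [Fintype P] (C : Subgroup P) (x : P) (u : P → ZMod m) :
    sm C x (fun z => -u z) = -sm C x u := by
  unfold sm
  rw [← Finset.sum_neg_distrib]
  refine Finset.sum_congr rfl fun z _ => ?_
  split_ifs <;> simp

theorem sm_sub [Fintype P] (C : Subgroup P) (x : P) (u w : P → ZMod m) :
    sm C x (fun z => u z - w z) = sm C x u - sm C x w := by
  simp only [sub_eq_add_neg]
  rw [sm_add, sm_neg]

theorem sm_zero [Fintype P] (C : Subgroup P) (x : P) : sm C x (fun _ => (0 : ZMod m)) = 0 := by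
  unfold sm
  simp

theorem sm_shift [Fintype P] (C : Subgroup P) (x : P) (u : P → ZMod m) {c : P} (hc : c ∈ C) :
    sm C x (fun z => u (c⁻¹ * z)) = sm C x u := by
  unfold sm
  refine Fintype.sum_equiv (Equiv.mulLeft c⁻¹) _ _ fun z => ?_
  rw [Equiv.coe_mulLeft]
  have h : c⁻¹ * z * x⁻¹ ∈ C ↔ z * x⁻¹ ∈ C := by
    rw [mul_assoc]
    exact C.mul_mem_cancel_left (C.inv_mem hc)
  simp only [h]

theorem sm_delta [Fintype P] (C : Subgroup P) (x h p : P) (b : Prop) :
    sm C x (fun z => if h⁻¹ * z = p ∧ b then (1 : ZMod m) else 0) =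
      if b then (if h * p * x⁻¹ ∈ C then 1 else 0) else 0 := by
  unfold sm
  beta_reduce
  by_cases hb : b
  · rw [if_pos hb, Finset.sum_eq_single (h * p)]
    · have h0 : (h⁻¹ * (h * p) = p ∧ b) := ⟨inv_mul_cancel_left _ _, hb⟩
      rw [if_pos h0]
    · intro z _ hz
      have h1 : ¬ (h⁻¹ * z = p ∧ b) := by
        rintro ⟨h1, -⟩
        exact hz (by rw [← h1, mul_inv_cancel_left])
      rw [if_neg h1]
      split_ifs <;> rfl
    · intro h1
      exact absurd (Finset.mem_univ _) h1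
  · rw [if_neg hb]
    refine Finset.sum_eq_zero fun z _ => ?_
    rw [if_neg (fun h1 : h⁻¹ * z = p ∧ b => hb h1.2)]
    split_ifs <;> rfl

/-- the subgroup with zero sums -/
def SS [Fintype P] (C : Subgroup P) : Subgroup (Wr P I m) where
  carrier := {w | w.g ∈ C ∧ ∀ x i, sm C x (fun z => w.f z i) = 0}
  one_mem' := ⟨C.one_mem, fun x _ => sm_zero C x⟩
  mul_mem' := by
    rintro a b ⟨ha1, ha2⟩ ⟨hb1, hb2⟩
    refine ⟨C.mul_mem ha1 hb1, fun x i => ?_⟩
    simp only [mul_f]
    rw [sm_add, ha2, sm_shift C x (fun z => b.f z i) ha1, hb2, add_zero]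
  inv_mem' := by
    rintro a ⟨ha1, ha2⟩
    refine ⟨C.inv_mem ha1, fun x i => ?_⟩
    simp only [inv_f]
    rw [sm_neg]
    have h1 := sm_shift C x (fun z => a.f z i) (C.inv_mem ha1)
    rw [inv_inv] at h1
    rw [h1, ha2, neg_zero]

theorem conj_mem [Fintype P] (C : Subgroup P) (Z : Wr P I m) (e : P)
    (h : Z.g * e * Z.g⁻¹ ∈ C) : Z * inl e * Z⁻¹ ∈ (SS C : Subgroup (Wr P I m)) := by
  refine ⟨h, fun x i => ?_⟩
  simp only [conj_inl_f]
  rw [sm_sub, sm_shift C x (fun z => Z.f z i) h, sub_self]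

end group

section words

variable {V : Type} {Γ : V → Type} [∀ v, Group (Γ v)] {P : Type} [Group P] {m : ℕ}

/-- the conjugators -/
noncomputable def tau (F : Finset (Σ v, Γ v)) (v : V) : Wr P F m :=
  ⟨fun z i => if z = 1 ∧ i.1.1 = v then 1 else 0, 1⟩

/-- the new maps -/
noncomputable def ph (m : ℕ) (F : Finset (Σ v, Γ v)) (φ : (v : V) → Γ v → P) (v : V) (a : Γ v) :
    Wr P F m := (tau F v)⁻¹ * inl (φ v a) * tau F v

theorem ph_g (F : Finset (Σ v, Γ v)) (φ : (v : V) → Γ v → P) (v : V) (a : Γ v) :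
    (ph m F φ v a).g = φ v a := by
  unfold ph
  rw [mul_g, mul_g, inv_g]
  change (1 : P)⁻¹ * φ v a * 1 = φ v a
  rw [inv_one, one_mul, mul_one]

theorem ph_f (F : Finset (Σ v, Γ v)) (φ : (v : V) → Γ v → P) (v : V) (a : Γ v) (z : P) (i : F) :
    (ph m F φ v a).f z i = (if z = φ v a ∧ i.1.1 = v then 1 else 0) -
      if z = 1 ∧ i.1.1 = v then 1 else 0 := by
  unfold ph
  rw [mul_f, mul_f, mul_g, inv_f, inv_g]
  change -(if 1 * z = 1 ∧ i.1.1 = v then (1 : ZMod m) else 0) + 0 +
    (if (1⁻¹ * φ v a)⁻¹ * z = 1 ∧ i.1.1 = v then 1 else 0) = _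
  have h1 : (1⁻¹ * φ v a)⁻¹ * z = 1 ↔ z = φ v a := by
    rw [inv_one, one_mul, inv_mul_eq_one]
    exact eq_comm
  simp only [h1, one_mul]
  ring

theorem ev_ph_g (F : Finset (Σ v, Γ v)) (φ : (v : V) → Γ v → P) (l : List (Σ v, Γ v)) :
    (ev (ph m F φ) l).g = ev φ l := by
  induction l with
  | nil => rfl
  | cons x l ih =>
    have h1 : ev (ph m F φ) (x :: l) = ph m F φ x.1 x.2 * ev (ph m F φ) l := by
      unfold ev
      rw [List.map_cons, List.prod_cons]
    have h2 : ev φ (x :: l) = φ x.1 x.2 * ev φ l := by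
      unfold ev
      rw [List.map_cons, List.prod_cons]
    rw [h1, h2, mul_g, ih, ph_g]

/-- the integer -/
noncomputable def DD (φ : (v : V) → Γ v → P) (C : Subgroup P) (x₀ : P) (v : V) :
    P → List (Σ v, Γ v) → ℤ
  | _, [] => 0
  | h, x :: l => (if x.1 = v then (if h * φ x.1 x.2 * x₀⁻¹ ∈ C then 1 else 0) -
      (if h * x₀⁻¹ ∈ C then 1 else 0) else 0) + DD φ C x₀ v (h * φ x.1 x.2) l

theorem sm_ev [Fintype P] (F : Finset (Σ v, Γ v)) (φ : (v : V) → Γ v → P) (C : Subgroup P)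
    (x₀ : P) (i : F) (l : List (Σ v, Γ v)) : ∀ h : P,
    sm C x₀ (fun z => (ev (ph m F φ) l).f (h⁻¹ * z) i) = ((DD φ C x₀ i.1.1 h l : ℤ) : ZMod m) := by
  induction l with
  | nil =>
    intro h
    have h1 : ∀ z : P, (ev (ph m F φ) []).f (h⁻¹ * z) i = 0 := fun z => rfl
    simp only [h1]
    rw [sm_zero]
    simp [DD]
  | cons x l ih =>
    intro h
    have h1 : ev (ph m F φ) (x :: l) = ph m F φ x.1 x.2 * ev (ph m F φ) l := by
      unfold ev
      rw [List.map_cons, List.prod_cons]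
    have h2 : ∀ z : P, (ev (ph m F φ) (x :: l)).f (h⁻¹ * z) i =
        ((if h⁻¹ * z = φ x.1 x.2 ∧ i.1.1 = x.1 then (1 : ZMod m) else 0) -
          (if h⁻¹ * z = 1 ∧ i.1.1 = x.1 then 1 else 0)) +
        (ev (ph m F φ) l).f ((h * φ x.1 x.2)⁻¹ * z) i := by
      intro z
      rw [h1, mul_f, ph_g, ph_f]
      congr 2
      group
    simp only [h2]
    rw [sm_add, sm_sub, sm_delta, sm_delta, ih (h * φ x.1 x.2)]
    rw [DD]
    by_cases hv : x.1 = i.1.1
    · rw [if_pos hv.symm, if_pos hv, if_pos hv.symm, mul_one]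
      push_cast
      rfl
    · rw [if_neg (fun h => hv h.symm), if_neg hv, if_neg (fun h => hv h.symm)]
      push_cast
      rw [sub_zero]

theorem DD_bound (φ : (v : V) → Γ v → P) (C : Subgroup P) (x₀ : P) (v : V)
    (l : List (Σ v, Γ v)) : ∀ h : P,
    (∀ p y q, l = p ++ y :: q → y.1 = v → h * ev φ p * x₀⁻¹ ∉ C) →
      0 ≤ DD φ C x₀ v h l ∧ DD φ C x₀ v h l ≤ l.length := by
  induction l with
  | nil =>
    intro h _
    simp [DD]
  | cons x l ih =>
    intro h hs
    have h1 : x.1 = v → h * x₀⁻¹ ∉ C := by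
      intro hx
      have := hs [] x l rfl hx
      have e : ev φ ([] : List (Σ v, Γ v)) = 1 := rfl
      rw [e, mul_one] at this
      exact this
    obtain ⟨h2, h3⟩ := ih (h * φ x.1 x.2) (by
      intro p y q hl hy
      have := hs (x :: p) y q (by rw [hl]; rfl) hy
      have e : ev φ (x :: p) = φ x.1 x.2 * ev φ p := by
        unfold ev
        rw [List.map_cons, List.prod_cons]
      rw [e, ← mul_assoc] at this
      exact this)
    rw [DD, List.length_cons]
    push_cast
    by_cases hx : x.1 = v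
    · rw [if_pos hx, if_neg (h1 hx)]
      split_ifs <;> constructor <;> omega
    · rw [if_neg hx]
      constructor <;> omega

end words

theorem t_B1 : N894.WF.LeafB1 := by
  intro V Γ _ F K N hN
  rintro ⟨P, hP, hPf, φ, hG⟩
  have : NeZero (N + 2) := ⟨by omega⟩
  have hPF : Fintype P := Fintype.ofFinite P
  refine ⟨Wr P F (N + 2), inferInstance, inferInstance, ph (N + 2) F φ, ?_⟩
  intro l hl hlen hlF hch T' hT'c hT'e hmem
  -- the projection
  set T : Finset P := T'.image (fun w => w.g) with hT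
  have hTc : T.card ≤ K := Finset.card_image_le.trans hT'c
  -- the errors
  have herr : ∀ t ∈ T', ∃ Z : Wr P F (N + 2), ∃ v : V, ∃ a b : Γ v, (⟨v, a⟩ : Σ v, Γ v) ∈ F ∧
      (⟨v, b⟩ : Σ v, Γ v) ∈ F ∧ t = Z * inl (φ v a * φ v b * (φ v (a * b))⁻¹) * Z⁻¹ := by
    intro t ht
    obtain ⟨x, v, a, b, ha, hb, h⟩ := hT'e t ht
    refine ⟨x * (tau F v)⁻¹, v, a, b, ha, hb, ?_⟩
    rw [h, inl_mul, inl_mul, inl_inv]
    unfold ph
    group
  have hTe : IsErrV φ F T := by
    intro t ht
    obtain ⟨w, hw, rfl⟩ := Finset.mem_image.1 ht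
    obtain ⟨Z, v, a, b, ha, hb, h⟩ := herr w hw
    exact ⟨Z.g, v, a, b, ha, hb, by rw [h, conj_inl_g]⟩
  set C : Subgroup P := Subgroup.closure (T : Set P) with hC
  have hsub : Subgroup.closure (T' : Set (Wr P F (N + 2))) ≤ SS C := by
    rw [Subgroup.closure_le]
    intro t ht
    have htT : t.g ∈ C := Subgroup.subset_closure (Finset.mem_coe.2 (Finset.mem_image_of_mem _ ht))
    obtain ⟨Z, v, a, b, ha, hb, h⟩ := herr t ht
    rw [h, conj_inl_g] at htT
    rw [h]
    exact conj_mem C Z _ htT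
  obtain ⟨hg, hf⟩ := hsub hmem
  rw [ev_ph_g] at hg
  rcases Nat.lt_or_ge N l.length with hlt | hge
  swap
  · exact hG l hl hge hlF hch T hTc hTe hg
  -- length `N + 1`
  obtain ⟨x, l₁, rfl⟩ : ∃ x l₁, l = x :: l₁ := List.exists_cons_of_ne_nil hl
  have hxF : x ∈ F := (hlF x (List.mem_cons_self)).1
  set w : P := φ x.1 x.2 with hw
  have hwC : w ∉ C := by
    have h1 := hG [x] (by simp) (by simpa using hN) (by
      intro y hy
      rw [List.mem_singleton] at hy
      rw [hy]
      exact hlF x List.mem_cons_self) (List.isChain_singleton x) T hTc hTe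
    have h2 : ev φ [x] = w := by
      unfold ev
      rw [List.map_singleton, List.prod_singleton]
    rwa [h2] at h1
  have hzero := hf w ⟨x, hxF⟩
  have h3 := sm_ev (m := N + 2) F φ C w ⟨x, hxF⟩ (x :: l₁) 1
  simp only [inv_one, one_mul] at h3
  rw [hzero] at h3
  have h4 : DD φ C w x.1 1 (x :: l₁) = 1 + DD φ C w x.1 w l₁ := by
    rw [DD, if_pos rfl, one_mul, one_mul, ← hw, mul_inv_cancel, if_pos C.one_mem, if_neg, sub_zero]
    intro h
    exact hwC (by simpa using C.inv_mem h)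
  by_cases hs : ∀ p y q, l₁ = p ++ y :: q → y.1 = x.1 → w * ev φ p * w⁻¹ ∉ C
  · obtain ⟨h5, h6⟩ := DD_bound φ C w x.1 l₁ w hs
    have h7 : ((DD φ C w x.1 1 (x :: l₁) : ℤ) : ZMod (N + 2)) = 0 := h3.symm
    rw [ZMod.intCast_zmod_eq_zero_iff_dvd, h4] at h7
    have h8 : l₁.length ≤ N := by
      rw [List.length_cons] at hlen
      omega
    have h9 := Int.le_of_dvd (by omega) h7
    push_cast at h9
    omega
  · push Not at hs
    obtain ⟨p, y, q, hl1, hy, hpC⟩ := hs
    have hp : p ≠ [] := by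
      rintro rfl
      rw [hl1, List.nil_append, List.isChain_cons_cons] at hch
      exact hch.1 hy.symm
    have hpl : p.length ≤ N := by
      have h5 : l₁.length = p.length + (q.length + 1) := by
        rw [hl1, List.length_append, List.length_cons]
      rw [List.length_cons] at hlen
      omega
    have hpch : p.IsChain (fun x y => x.1 ≠ y.1) := by
      have h5 := hch.tail
      rw [List.tail_cons, hl1] at h5
      exact (List.isChain_append.1 h5).1
    set T2 : Finset P := T.image (fun t => w⁻¹ * t * w) with hT2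
    refine hG p hp hpl (fun z hz => hlF z ?_) hpch T2 (Finset.card_image_le.trans hTc) ?_ ?_
    · rw [hl1]
      exact List.mem_cons_of_mem _ (List.mem_append_left _ hz)
    · intro t ht
      obtain ⟨s, hs, rfl⟩ := Finset.mem_image.1 ht
      obtain ⟨z, v, a, b, ha, hb, h⟩ := hTe s hs
      exact ⟨w⁻¹ * z, v, a, b, ha, hb, by rw [h]; group⟩
    · have h5 : (T2 : Set P) = (MulAut.conj w⁻¹).toMonoidHom '' (T : Set P) := by
        rw [hT2, Finset.coe_image]
        refine Set.image_congr fun t _ => ?_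
        simp [MulAut.conj_apply]
      rw [h5, ← MonoidHom.map_closure]
      refine ⟨w * ev φ p * w⁻¹, hpC, ?_⟩
      simp [MulAut.conj_apply, mul_assoc]

end Pool.Agent.N371.WF
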